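import Pool.Agent.H81.LE.Targets

open scoped ENNReal
open MeasureTheory

namespace Pool.Agent.H81.LE

theorem crit.{u, v} (h1 : T_LIT.{u}) (h2 : T_MEA.{u, v}) (h3 : T_HEAD) : T_CRIT.{u, v} := by
  intro Γ _ X _ _ hm c hc H
  classical
  -- a natural number `K` with `1 ≤ c K`
  obtain ⟨K, hK0, hK⟩ : ∃ K : ℕ, 1 ≤ K ∧ 1 ≤ c * (K : ℝ≥0∞) := by
    by_cases hct : c = ∞
    · exact ⟨1, le_rfl, by simp [hct]⟩
    · obtain ⟨n, hn⟩ := ENNReal.exists_nat_gt (ENNReal.inv_ne_top.2 hc)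
      refine ⟨n + 1, by omega, ?_⟩
      calc (1 : ℝ≥0∞) = c * c⁻¹ := (ENNReal.mul_inv_cancel hc hct).symm
        _ ≤ c * ((n + 1 : ℕ) : ℝ≥0∞) := by
            refine mul_le_mul_right (hn.le.trans ?_) c
            exact_mod_cast Nat.le_succ n
  refine h1 Γ K fun N' => ?_
  obtain ⟨s, ν, κ, φ, hν, Hs⟩ := H (2 * K * N')
  obtain ⟨p, hp⟩ := h3 (2 * K * N')
  have count : ∀ (A B : Finset Γ) (E : Finset (Γ × Fin (2 * K * N'))),
      (∀ x ∈ E, x.1 ∈ A ∧ x.1 * s x.2 ∈ B) → E.card ≤ K * (A.card + B.card) := by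
    intro A B E hE
    have h4 := h2 Γ X hm (2 * K * N') s ν κ c (fun x => p (φ x)) hν (fun i => ⟨(Hs i).1,
      (Hs i).2.1, (Hs i).2.2.1, by
        filter_upwards [(Hs i).2.2.2] with x hx
        rw [hx]
        exact hp (φ x) i⟩) A B E hE
    have h5 : (E.card : ℝ≥0∞) ≤ (K : ℝ≥0∞) * ((A.card : ℝ≥0∞) + (B.card : ℝ≥0∞)) := by
      calc (E.card : ℝ≥0∞) = 1 * (E.card : ℝ≥0∞) := (one_mul _).symm
        _ ≤ (c * (K : ℝ≥0∞)) * (E.card : ℝ≥0∞) := mul_le_mul_left hK _
        _ = (K : ℝ≥0∞) * (c * (E.card : ℝ≥0∞)) := by ring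
        _ ≤ _ := mul_le_mul_right h4 _
    exact_mod_cast h5
  refine ⟨Finset.univ.image s, ?_, ?_⟩
  · have h4 : (Finset.univ : Finset (Fin (2 * K * N'))).card ≤
        2 * K * (Finset.univ.image s).card := by
      refine Finset.card_le_mul_card_image (s := Finset.univ) (f := s) (2 * K) fun g _ => ?_
      have h5 := count {1} {g} ((Finset.univ.filter fun i => s i = g).image fun i => ((1 : Γ), i))
        (by
          intro x hx
          obtain ⟨i, hi, rfl⟩ := Finset.mem_image.1 hx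
          simp [(Finset.mem_filter.1 hi).2])
      rw [Finset.card_image_of_injective _ (fun a b hab => (Prod.mk.inj hab).2)] at h5
      simp only [Finset.card_singleton] at h5
      linarith
    rw [Finset.card_univ, Fintype.card_fin] at h4
    exact Nat.le_of_mul_le_mul_left h4 (by positivity)
  · intro A B E hE
    have h4 : ∀ x ∈ E, ∃ i, s i = x.1⁻¹ * x.2 := fun x hx => by
      obtain ⟨i, _, hi⟩ := Finset.mem_image.1 (hE x hx).2.2
      exact ⟨i, hi⟩
    rcases E.eq_empty_or_nonempty with rfl | ⟨x0, hx0⟩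
    · simp
    have hne : Nonempty (Fin (2 * K * N')) := ⟨(h4 x0 hx0).choose⟩
    choose! i hi using h4
    have h5 := count A B (E.image fun x => (x.1, i x)) (by
      intro y hy
      obtain ⟨x, hx, rfl⟩ := Finset.mem_image.1 hy
      refine ⟨(hE x hx).1, ?_⟩
      simp only [hi x hx, mul_inv_cancel_left]
      exact (hE x hx).2.1)
    rwa [Finset.card_image_of_injOn] at h5
    intro x hx y hy hxy
    simp only [Prod.mk.injEq] at hxy
    have e1 := hi x hx
    have e2 := hi y hy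
    rw [hxy.2, e2, hxy.1, mul_right_inj] at e1
    exact Prod.ext hxy.1 e1.symm

end Pool.Agent.H81.LE
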