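import Pool.Agent.H81.LE.Targets

open scoped MatrixGroups

namespace Pool.Agent.H81.LE

/-- Möbius transformations, as functions. -/
noncomputable def mob (a b c d x : ℝ) : ℝ := (a * x + b) / (c * x + d)

theorem mob_comp {a b c d : ℝ} {x : ℝ} (a' b' c' d' : ℝ) (h : c * x + d ≠ 0) :
    mob a' b' c' d' (mob a b c d x) =
      mob (a' * a + b' * c) (a' * b + b' * d) (c' * a + d' * c) (c' * b + d' * d) x := by
  unfold mob
  have e1 : a' * ((a * x + b) / (c * x + d)) + b' =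
      (a' * (a * x + b) + b' * (c * x + d)) / (c * x + d) := by
    rw [add_div (a' * (a * x + b)), mul_div_assoc, mul_div_cancel_right₀ _ h]
  have e2 : c' * ((a * x + b) / (c * x + d)) + d' =
      (c' * (a * x + b) + d' * (c * x + d)) / (c * x + d) := by
    rw [add_div (c' * (a * x + b)), mul_div_assoc, mul_div_cancel_right₀ _ h]
  rw [e1, e2, div_div_div_cancel_right₀ h]
  congr 1 <;> ring

theorem mob_scale {a b c d x k : ℝ} (hk : k ≠ 0) :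
    mob (k * a) (k * b) (k * c) (k * d) x = mob a b c d x := by
  unfold mob
  rw [show k * a * x + k * b = k * (a * x + b) by ring,
    show k * c * x + k * d = k * (c * x + d) by ring, mul_div_mul_left _ _ hk]

theorem mob_congr {a b c d a' b' c' d' x : ℝ} (h1 : a = a') (h2 : b = b') (h3 : c = c')
    (h4 : d = d') : mob a b c d x = mob a' b' c' d' x := by
  rw [h1, h2, h3, h4]

theorem inv_eq_of {f : ℝ ≃o ℝ} {x y : ℝ} (h : f y = x) : f⁻¹ x = y := by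
  rw [← h]
  exact f.symm_apply_apply y

theorem lmC_apply {t : ℝ} (h0 : 0 ≤ t) (h1 : t ≤ 1) : lmC t = mob 2 0 1 1 t := by
  change lmCfun t = _
  rw [lmCfun, if_pos ⟨h0, h1⟩, mob]
  congr 1 <;> ring

theorem lmC_pow_apply (n : ℕ) {t : ℝ} (h0 : 0 ≤ t) (h1 : t ≤ 1) :
    (lmC ^ n) t = mob (2 ^ n) 0 (2 ^ n - 1) 1 t := by
  induction n with
  | zero =>
    simp [mob]
  | succ n ih =>
    have hq : (1 : ℝ) ≤ 2 ^ n := one_le_pow₀ (by norm_num)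
    have hd : 0 < (2 ^ n - 1) * t + 1 := by nlinarith
    rw [pow_succ', RelIso.mul_apply, ih]
    have e0 : 0 ≤ mob (2 ^ n) 0 (2 ^ n - 1) 1 t := by unfold mob; positivity
    have e1 : mob (2 ^ n) 0 (2 ^ n - 1) 1 t ≤ 1 := by
      unfold mob
      rw [div_le_one hd]; nlinarith
    rw [lmC_apply e0 e1, mob_comp _ _ _ _ hd.ne']
    apply mob_congr <;> ring

theorem lmB_inv_apply {t : ℝ} (h0 : 0 ≤ t) (h1 : t ≤ 1) : lmB⁻¹ t = mob 1 0 1 1 t := by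
  refine inv_eq_of ?_
  have e : mob 1 0 1 1 t = lmBinv t := by
    unfold lmBinv mob
    split_ifs with h
    · have : t = 0 := le_antisymm h h0
      simp [this]
    · congr 1 <;> ring
  change lmBfun (mob 1 0 1 1 t) = t
  rw [e, lmBfun_lmBinv]

theorem lmB_inv_apply' {t : ℝ} (h0 : 0 ≤ t) (h1 : t ≤ 1) : lmB⁻¹ (t + 1) = mob 0 1 (-1) 2 t := by
  refine inv_eq_of ?_
  have e : mob 0 1 (-1) 2 t = lmBinv (t + 1) := by
    unfold lmBinv mob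
    rw [if_neg (by linarith)]
    split_ifs with h h2
    · have : t = 0 := by linarith
      subst this
      norm_num
    · congr 1 <;> ring
    · linarith
  change lmBfun (mob 0 1 (-1) 2 t) = t + 1
  rw [e, lmBfun_lmBinv]

/-- The parabolic element fixing `0`. -/
noncomputable def elP (n : ℕ) : ℝ ≃o ℝ := lmC ^ n * lmB⁻¹ * (lmC ^ n)⁻¹

/-- The parabolic element fixing `1`. -/
noncomputable def elQ (n : ℕ) : ℝ ≃o ℝ := (lmC ^ n)⁻¹ * lmB⁻¹ * lmA * lmC ^ n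

theorem lmC_pow_inv_apply (n : ℕ) {t : ℝ} (h0 : 0 ≤ t) (h1 : t ≤ 1) :
    (lmC ^ n)⁻¹ t = mob 1 0 (1 - 2 ^ n) (2 ^ n) t := by
  have hq : (1 : ℝ) ≤ 2 ^ n := one_le_pow₀ (by norm_num)
  have hq0 : (0 : ℝ) < 2 ^ n := by positivity
  have hd : 0 < (1 - 2 ^ n) * t + 2 ^ n := by nlinarith
  have hu0 : 0 ≤ mob 1 0 (1 - 2 ^ n) (2 ^ n) t := by
    unfold mob; exact div_nonneg (by linarith) hd.le
  have hu1 : mob 1 0 (1 - 2 ^ n) (2 ^ n) t ≤ 1 := by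
    unfold mob
    rw [div_le_one hd]; nlinarith
  refine inv_eq_of ?_
  rw [lmC_pow_apply n hu0 hu1, mob_comp _ _ _ _ hd.ne',
    mob_congr (a' := 2 ^ n * 1) (b' := 2 ^ n * 0) (c' := 2 ^ n * 0) (d' := 2 ^ n * 1) (by ring)
      (by ring) (by ring) (by ring), mob_scale hq0.ne']
  simp [mob]

theorem elP_apply (n : ℕ) {t : ℝ} (h0 : 0 ≤ t) (h1 : t ≤ 1) :
    elP n t = mob 1 0 ((1 / 2) ^ n) 1 t := by
  have hq : (1 : ℝ) ≤ 2 ^ n := one_le_pow₀ (by norm_num)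
  have hq0 : (0 : ℝ) < 2 ^ n := by positivity
  have hd : 0 < (1 - 2 ^ n) * t + 2 ^ n := by nlinarith
  have hu0 : 0 ≤ mob 1 0 (1 - 2 ^ n) (2 ^ n) t := by
    unfold mob; exact div_nonneg (by linarith) hd.le
  have hu1 : mob 1 0 (1 - 2 ^ n) (2 ^ n) t ≤ 1 := by
    unfold mob
    rw [div_le_one hd]; nlinarith
  have e2 : lmB⁻¹ (mob 1 0 (1 - 2 ^ n) (2 ^ n) t) = mob 1 0 (2 - 2 ^ n) (2 ^ n) t := by
    rw [lmB_inv_apply hu0 hu1, mob_comp _ _ _ _ hd.ne']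
    apply mob_congr <;> ring
  have hd' : 0 < (2 - 2 ^ n) * t + 2 ^ n := by nlinarith
  have hv0 : 0 ≤ mob 1 0 (2 - 2 ^ n) (2 ^ n) t := by
    unfold mob; exact div_nonneg (by linarith) hd'.le
  have hv1 : mob 1 0 (2 - 2 ^ n) (2 ^ n) t ≤ 1 := by
    unfold mob
    rw [div_le_one hd']; nlinarith
  rw [elP, RelIso.mul_apply, RelIso.mul_apply, lmC_pow_inv_apply n h0 h1, e2,
    lmC_pow_apply n hv0 hv1, mob_comp _ _ _ _ hd'.ne', ← mob_scale (a := 1) (b := 0)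
      (c := (1 / 2) ^ n) (d := 1) hq0.ne']
  have : (2 : ℝ) ^ n * (1 / 2) ^ n = 1 := by rw [← mul_pow]; norm_num
  refine mob_congr (by ring) (by ring) ?_ (by ring)
  rw [this]
  ring

theorem elQ_apply (n : ℕ) {t : ℝ} (h0 : 0 ≤ t) (h1 : t ≤ 1) :
    elQ n t = mob (1 - (1 / 2) ^ n) ((1 / 2) ^ n) (-(1 / 2) ^ n) (1 + (1 / 2) ^ n) t := by
  have hq : (1 : ℝ) ≤ 2 ^ n := one_le_pow₀ (by norm_num)
  have hq0 : (0 : ℝ) < 2 ^ n := by positivity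
  have hd : 0 < (2 ^ n - 1) * t + 1 := by nlinarith
  have hx0 : 0 ≤ mob (2 ^ n) 0 (2 ^ n - 1) 1 t := by
    unfold mob; exact div_nonneg (by positivity) hd.le
  have hx1 : mob (2 ^ n) 0 (2 ^ n - 1) 1 t ≤ 1 := by
    unfold mob
    rw [div_le_one hd]; nlinarith
  have e0 : lmA (mob (2 ^ n) 0 (2 ^ n - 1) 1 t) = mob (2 ^ n) 0 (2 ^ n - 1) 1 t + 1 := rfl
  have e1 : lmB⁻¹ (mob (2 ^ n) 0 (2 ^ n - 1) 1 t + 1) = mob (2 ^ n - 1) 1 (2 ^ n - 2) 2 t := by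
    rw [lmB_inv_apply' hx0 hx1, mob_comp _ _ _ _ hd.ne']
    apply mob_congr <;> ring
  have hd2 : 0 < (2 ^ n - 2) * t + 2 := by nlinarith
  have hv0 : 0 ≤ mob (2 ^ n - 1) 1 (2 ^ n - 2) 2 t := by
    unfold mob; exact div_nonneg hd.le hd2.le
  have hv1 : mob (2 ^ n - 1) 1 (2 ^ n - 2) 2 t ≤ 1 := by
    unfold mob
    rw [div_le_one hd2]; nlinarith
  rw [elQ, RelIso.mul_apply, RelIso.mul_apply, RelIso.mul_apply, lmC_pow_apply n h0 h1, e0, e1,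
    lmC_pow_inv_apply n hv0 hv1, mob_comp _ _ _ _ hd2.ne', ← mob_scale (a := 1 - (1 / 2) ^ n)
      (b := (1 / 2) ^ n) (c := -(1 / 2) ^ n) (d := 1 + (1 / 2) ^ n) hq0.ne']
  have : (2 : ℝ) ^ n * (1 / 2) ^ n = 1 := by rw [← mul_pow]; norm_num
  refine mob_congr ?_ ?_ ?_ ?_
  · rw [mul_sub (2 ^ n : ℝ) 1, this]; ring
  · rw [this]; ring
  · rw [mul_neg, this]; ring
  · rw [mul_add, this]; ring

theorem elP_pow_apply (n k : ℕ) {t : ℝ} (h0 : 0 ≤ t) (h1 : t ≤ 1) :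
    (elP n ^ k) t = mob 1 0 (k * (1 / 2) ^ n) 1 t := by
  induction k with
  | zero => simp [mob]
  | succ k ih =>
    have hd : 0 < k * (1 / 2) ^ n * t + 1 := by positivity
    have e0 : 0 ≤ mob 1 0 (k * (1 / 2) ^ n) 1 t := by
      unfold mob; positivity
    have e1 : mob 1 0 (k * (1 / 2) ^ n) 1 t ≤ 1 := by
      unfold mob
      rw [div_le_one hd]
      have : 0 ≤ k * (1 / 2) ^ n * t := by positivity
      linarith
    rw [pow_succ', RelIso.mul_apply, ih, elP_apply n e0 e1, mob_comp _ _ _ _ hd.ne']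
    push_cast
    apply mob_congr <;> ring

/-- The matrices of the elements of the Lodha-Moore group. -/
noncomputable def wLM (s : ℕ) (ε : ℝ) : SL(2, ℝ) :=
  ⟨!![1 + s * ε ^ 2 - ε, ε; 2 * s * ε + s ^ 2 * ε ^ 3 - ε, 1 + s * ε ^ 2 + ε], by
    rw [Matrix.det_fin_two_of]; ring⟩

/-- The conjugating matrix. -/
def cM : SL(2, ℝ) := ⟨!![1, -1; 1, 0], by rw [Matrix.det_fin_two_of]; norm_num⟩

theorem wLM_eq (s : ℕ) (ε : ℝ) : wLM s ε = cM⁻¹ * W s (-ε) * cM := by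
  rw [eq_comm, mul_assoc, inv_mul_eq_iff_eq_mul]
  ext i j
  fin_cases i <;> fin_cases j <;>
    simp [cM, wLM, W, Matrix.mul_apply, Fin.sum_univ_two] <;> ring

theorem wLM_injective {N : ℕ} {ε : ℝ}
    (h : Function.Injective (FreeGroup.lift fun i : Fin N => W ((i : ℕ) + 1) (-ε))) :
    Function.Injective (FreeGroup.lift fun i : Fin N => wLM ((i : ℕ) + 1) ε) := by
  have e : FreeGroup.lift (fun i : Fin N => wLM ((i : ℕ) + 1) ε) =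
      (MulAut.conj cM⁻¹).toMonoidHom.comp
        (FreeGroup.lift fun i : Fin N => W ((i : ℕ) + 1) (-ε)) := by
    ext1 i
    simp [wLM_eq]
  rw [e, MonoidHom.coe_comp]
  exact (MulAut.conj cM⁻¹).injective.comp h

theorem elS_apply (n s : ℕ) (hs : 1 ≤ s) {t : ℝ} (h0 : 0 ≤ t) (h1 : t ≤ 1) :
    EqMob (elP n ^ s * elQ n * elP n ^ s) (wLM s ((1 / 2) ^ n)) t := by
  have hε0 : (0 : ℝ) < (1 / 2) ^ n := by positivity
  have hε1 : ((1 : ℝ) / 2) ^ n ≤ 1 := pow_le_one₀ (by norm_num) (by norm_num)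
  have hs' : (1 : ℝ) ≤ s := by exact_mod_cast hs
  have hd : 0 < s * (1 / 2) ^ n * t + 1 := by positivity
  have a0 : 0 ≤ mob 1 0 (s * (1 / 2) ^ n) 1 t := by
    unfold mob; positivity
  have a1 : mob 1 0 (s * (1 / 2) ^ n) 1 t ≤ 1 := by
    unfold mob
    rw [div_le_one hd]
    have : 0 ≤ s * (1 / 2) ^ n * t := by positivity
    linarith
  have b1 : elQ n ((elP n ^ s) t) = mob (1 - (1 / 2) ^ n + s * ((1 / 2) ^ n) ^ 2) ((1 / 2) ^ n)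
      (-(1 / 2) ^ n + (1 + (1 / 2) ^ n) * s * (1 / 2) ^ n) (1 + (1 / 2) ^ n) t := by
    rw [elP_pow_apply n s h0 h1, elQ_apply n a0 a1, mob_comp _ _ _ _ hd.ne']
    apply mob_congr <;> ring
  have h4 : 0 < (-(1 / 2) ^ n + (1 + (1 / 2) ^ n) * s * (1 / 2) ^ n) * t + (1 + (1 / 2) ^ n) := by
    generalize ((1 : ℝ) / 2) ^ n = ε at *
    have : 0 ≤ ((s - 1) * ε + s * ε ^ 2) * t :=
      mul_nonneg (add_nonneg (mul_nonneg (by linarith) hε0.le) (by positivity)) h0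
    nlinarith
  have c0 : 0 ≤ elQ n ((elP n ^ s) t) := by
    rw [b1]
    unfold mob
    generalize ((1 : ℝ) / 2) ^ n = ε at *
    have h5 : 0 ≤ (1 - ε + s * ε ^ 2) * t :=
      mul_nonneg (add_nonneg (by linarith) (by positivity)) h0
    exact div_nonneg (by linarith) h4.le
  have c1 : elQ n ((elP n ^ s) t) ≤ 1 := by
    rw [b1]
    unfold mob
    generalize ((1 : ℝ) / 2) ^ n = ε at *
    rw [div_le_one h4]
    have h5 : 0 ≤ (s * ε) * t := by positivity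
    nlinarith
  have hβ : 0 ≤ (2 * s * (1 / 2) ^ n + s ^ 2 * ((1 / 2) ^ n) ^ 3 - (1 / 2) ^ n) * t := by
    generalize ((1 : ℝ) / 2) ^ n = ε at *
    refine mul_nonneg ?_ h0
    have h6 : 0 ≤ (s : ℝ) ^ 2 * ε ^ 3 := by positivity
    nlinarith
  have hden : 0 < (2 * s * (1 / 2) ^ n + s ^ 2 * ((1 / 2) ^ n) ^ 3 - (1 / 2) ^ n) * t +
      (1 + s * ((1 / 2) ^ n) ^ 2 + (1 / 2) ^ n) := by positivity
  have e10 : wLM s ((1 / 2) ^ n) 1 0 =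
      2 * s * (1 / 2) ^ n + s ^ 2 * ((1 / 2) ^ n) ^ 3 - (1 / 2) ^ n := by
    simp [wLM]
  have e11 : wLM s ((1 / 2) ^ n) 1 1 = 1 + s * ((1 / 2) ^ n) ^ 2 + (1 / 2) ^ n := by
    simp [wLM]
  have e00 : wLM s ((1 / 2) ^ n) 0 0 = 1 + s * ((1 / 2) ^ n) ^ 2 - (1 / 2) ^ n := by
    simp [wLM]
  have e01 : wLM s ((1 / 2) ^ n) 0 1 = (1 / 2) ^ n := by
    simp [wLM]
  refine ⟨by rw [e10, e11]; exact hden.ne', ?_⟩
  change _ = mob _ _ _ _ t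
  rw [e10, e11, e00, e01, mul_assoc, RelIso.mul_apply, RelIso.mul_apply, elP_pow_apply n s c0 c1,
    b1, mob_comp _ _ _ _ h4.ne']
  apply mob_congr <;> ring

theorem wLM_close {s N : ℕ} (hs1 : 1 ≤ (s : ℝ)) (hs2 : (s : ℝ) ≤ N + 1) {ε : ℝ} (hε0 : 0 < ε)
    (hε1 : ε ≤ 1) :
    |wLM s ε 0 0 - 1| ≤ 5 * (N + 1) ^ 2 * ε ∧ |wLM s ε 0 1| ≤ 5 * (N + 1) ^ 2 * ε ∧
    |wLM s ε 1 0| ≤ 5 * (N + 1) ^ 2 * ε ∧ |wLM s ε 1 1 - 1| ≤ 5 * (N + 1) ^ 2 * ε := by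
  have e10 : wLM s ε 1 0 = 2 * s * ε + s ^ 2 * ε ^ 3 - ε := by simp [wLM]
  have e11 : wLM s ε 1 1 = 1 + s * ε ^ 2 + ε := by simp [wLM]
  have e00 : wLM s ε 0 0 = 1 + s * ε ^ 2 - ε := by simp [wLM]
  have e01 : wLM s ε 0 1 = ε := by simp [wLM]
  rw [e10, e11, e00, e01]
  have hN : (1 : ℝ) ≤ N + 1 := hs1.trans hs2
  have hNN : (N + 1 : ℝ) ≤ (N + 1) ^ 2 := by nlinarith
  have k1 : (s : ℝ) * ε ≤ (N + 1) ^ 2 * ε := mul_le_mul_of_nonneg_right (hs2.trans hNN) hε0.le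
  have k2 : (s : ℝ) ^ 2 * ε ≤ (N + 1) ^ 2 * ε :=
    mul_le_mul_of_nonneg_right (pow_le_pow_left₀ (by linarith) hs2 2) hε0.le
  have k3 : ε ≤ (N + 1) ^ 2 * ε := le_mul_of_one_le_left hε0.le (hN.trans hNN)
  have k4 : (s : ℝ) * ε ^ 2 ≤ (N + 1) ^ 2 * ε := by
    have : (s : ℝ) * ε ^ 2 ≤ s * ε :=
      mul_le_mul_of_nonneg_left (by nlinarith) (by linarith)
    linarith
  have k5 : (s : ℝ) ^ 2 * ε ^ 3 ≤ (N + 1) ^ 2 * ε := by
    have h8 : ε ^ 3 ≤ ε := by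
      calc ε ^ 3 = ε * (ε * ε) := by ring
        _ ≤ ε * 1 := mul_le_mul_of_nonneg_left (by nlinarith) hε0.le
        _ = ε := mul_one _
    have : (s : ℝ) ^ 2 * ε ^ 3 ≤ s ^ 2 * ε := mul_le_mul_of_nonneg_left h8 (by positivity)
    linarith
  have k6 : 0 ≤ (s : ℝ) * ε ^ 2 := by positivity
  have k7 : 0 ≤ (s : ℝ) ^ 2 * ε ^ 3 := by positivity
  have k8 : 0 ≤ (s : ℝ) * ε := by positivity
  refine ⟨?_, ?_, ?_, ?_⟩ <;> rw [abs_le] <;> constructor <;> linarith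

theorem lm (h : T_GEN) : T_LM := by
  intro Γ hA hB hC N δ hδ
  obtain ⟨k₀, hk₀⟩ := h (1 / 2) (by norm_num) (by norm_num) N
  obtain ⟨k₁, hk₁⟩ := exists_pow_lt_of_lt_one (show (0 : ℝ) < min 1 (δ / (10 * (N + 1) ^ 2)) by
    positivity) (show (1 / 2 : ℝ) < 1 by norm_num)
  set n := max k₀ k₁ with hn
  have hε : ((1 : ℝ) / 2) ^ n < min 1 (δ / (10 * (N + 1) ^ 2)) :=
    lt_of_le_of_lt (pow_le_pow_of_le_one (by norm_num) (by norm_num) (le_max_right _ _)) hk₁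
  have hε0 : (0 : ℝ) < (1 / 2) ^ n := by positivity
  have hε1 : ((1 : ℝ) / 2) ^ n ≤ 1 := hε.le.trans (min_le_left _ _)
  have hP : elP n ∈ Γ := Γ.mul_mem (Γ.mul_mem (Γ.pow_mem hC _) (Γ.inv_mem hB))
    (Γ.inv_mem (Γ.pow_mem hC _))
  have hQ : elQ n ∈ Γ := Γ.mul_mem (Γ.mul_mem (Γ.mul_mem (Γ.inv_mem (Γ.pow_mem hC _))
    (Γ.inv_mem hB)) hA) (Γ.pow_mem hC _)
  have hb : 5 * (N + 1) ^ 2 * (1 / 2) ^ n ≤ δ := by
    have h4 : (1 / 2 : ℝ) ^ n ≤ δ / (10 * (N + 1) ^ 2) := hε.le.trans (min_le_right _ _)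
    rw [le_div_iff₀ (by positivity)] at h4
    nlinarith
  refine ⟨fun i => elP n ^ ((i : ℕ) + 1) * elQ n * elP n ^ ((i : ℕ) + 1),
    fun i => wLM ((i : ℕ) + 1) ((1 / 2) ^ n),
    wLM_injective (hk₀ n (le_max_left _ _) _ (Or.inr rfl)), fun i => ?_⟩
  have hs1 : (1 : ℝ) ≤ ((i : ℕ) + 1 : ℕ) := by
    push_cast; linarith [Nat.cast_nonneg (α := ℝ) (i : ℕ)]
  have hs2 : (((i : ℕ) + 1 : ℕ) : ℝ) ≤ N + 1 := by
    have := i.2
    have h3 : (i : ℕ) + 1 ≤ N + 1 := by omega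
    exact_mod_cast h3
  obtain ⟨g1, g2, g3, g4⟩ := wLM_close hs1 hs2 hε0 hε1
  exact ⟨Γ.mul_mem (Γ.mul_mem (Γ.pow_mem hP _) hQ) (Γ.pow_mem hP _), g1.trans hb, g2.trans hb,
    g3.trans hb, g4.trans hb, fun x hx => elS_apply n _ (Nat.le_add_left 1 _) hx.1 hx.2⟩

end Pool.Agent.H81.LE
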