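import Pool.Agent.H81.LE.Targets

open scoped ENNReal
open MeasureTheory

namespace Pool.Agent.H81.LE

/-- A measure below `μ` has a density. -/
theorem exists_density {X : Type*} [MeasurableSpace X] {μ m : Measure X} [IsFiniteMeasure μ]
    (h : m ≤ μ) : ∃ f : X → ℝ≥0∞, Measurable f ∧ ∀ s, MeasurableSet s →
      ∫⁻ x in s, f x ∂μ = m s := by
  have : IsFiniteMeasure m := isFiniteMeasure_of_le μ h
  refine ⟨m.rnDeriv μ, Measure.measurable_rnDeriv _ _, fun s hs => ?_⟩
  rw [← withDensity_apply _ hs, Measure.withDensity_rnDeriv_eq _ _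
    (Measure.absolutelyContinuous_of_le h)]

theorem density_le {X : Type*} [MeasurableSpace X] {μ m m' : Measure X} [IsFiniteMeasure μ]
    (h : m ≤ m') {f f' : X → ℝ≥0∞} (hf : Measurable f)
    (h1 : ∀ s, MeasurableSet s → ∫⁻ x in s, f x ∂μ = m s)
    (h2 : ∀ s, MeasurableSet s → ∫⁻ x in s, f' x ∂μ = m' s) : f ≤ᵐ[μ] f' :=
  ae_le_of_forall_setLIntegral_le_of_sigmaFinite hf fun s hs _ => by
    rw [h1 s hs, h2 s hs]; exact h s

theorem mea.{u, v} : T_MEA.{u, v} := by
  intro Γ _ X _ _ hm N s ν κ c p hν H A B E hE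
  classical
  have hνf : IsFiniteMeasure ν := ⟨hν.trans_lt ENNReal.one_lt_top⟩
  have hmap : ∀ g h : Γ, ∀ m : Measure X, (m.map (fun x : X => h • x)).map (fun x : X => g • x) =
      m.map (fun x : X => (g * h) • x) := by
    intro g h m
    rw [Measure.map_map (hm g) (hm h)]
    congr 1
    funext x
    simp [mul_smul]
  set μ : Measure X := ∑ v ∈ A ∪ B, ν.map (fun x : X => v • x) with hμ
  have hμf : IsFiniteMeasure μ := by
    refine ⟨?_⟩
    rw [hμ, Measure.finsetSum_apply]
    refine ENNReal.sum_lt_top.2 fun v _ => ?_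
    rw [Measure.map_apply (hm v) MeasurableSet.univ]
    exact measure_lt_top _ _
  have hle : ∀ v ∈ A ∪ B, ν.map (fun x : X => v • x) ≤ μ := by
    intro v hv
    rw [Measure.le_iff]
    intro t ht
    rw [hμ, Measure.finsetSum_apply]
    exact Finset.single_le_sum (f := fun v => (ν.map (fun x : X => v • x)) t)
      (fun _ _ => bot_le) hv
  -- densities of the vertices
  have hω : ∀ v : Γ, ∃ f : X → ℝ≥0∞, Measurable f ∧ (v ∈ A ∪ B → ∀ t, MeasurableSet t →
      ∫⁻ x in t, f x ∂μ = (ν.map (fun x : X => v • x)) t) := by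
    intro v
    by_cases hv : v ∈ A ∪ B
    · obtain ⟨f, h1, h2⟩ := exists_density (hle v hv)
      exact ⟨f, h1, fun _ => h2⟩
    · exact ⟨0, measurable_zero, fun h => absurd h hv⟩
  choose ω hωm hωi using hω
  -- the measures of the edges
  let lam : Γ × Fin N → Measure X := fun e => (κ e.2).map (fun x : X => (e.1 * s e.2) • x)
  have hlam1 : ∀ e : Γ × Fin N, lam e ≤ ν.map (fun x : X => e.1 • x) := by
    intro e
    have h1 := Measure.map_mono (H e.2).2.1 (hm e.1)
    rw [hmap] at h1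
    exact h1
  have hlam2 : ∀ e : Γ × Fin N, lam e ≤ ν.map (fun x : X => (e.1 * s e.2) • x) := fun e =>
    Measure.map_mono (H e.2).1 (hm _)
  have hA : ∀ e ∈ E, e.1 ∈ A ∪ B := fun e he => Finset.mem_union_left _ (hE e he).1
  have hB : ∀ e ∈ E, e.1 * s e.2 ∈ A ∪ B := fun e he => Finset.mem_union_right _ (hE e he).2
  have hℓ : ∀ e : Γ × Fin N, ∃ f : X → ℝ≥0∞, Measurable f ∧ (e ∈ E → ∀ t, MeasurableSet t →
      ∫⁻ x in t, f x ∂μ = lam e t) := by
    intro e
    by_cases he : e ∈ E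
    · obtain ⟨f, h1, h2⟩ := exists_density ((hlam1 e).trans (hle _ (hA e he)))
      exact ⟨f, h1, fun _ => h2⟩
    · exact ⟨0, measurable_zero, fun h => absurd h he⟩
  choose ℓ hℓm hℓi using hℓ
  have hle1 : ∀ e ∈ E, ∀ᵐ z ∂μ, ℓ e z ≤ ω e.1 z := fun e he =>
    density_le (hlam1 e) (hℓm e) (hℓi e he) (hωi _ (hA e he))
  have hle2 : ∀ e ∈ E, ∀ᵐ z ∂μ, ℓ e z ≤ ω (e.1 * s e.2) z := fun e he =>
    density_le (hlam2 e) (hℓm e) (hℓi e he) (hωi _ (hB e he))
  have hp : ∀ e ∈ E, ∀ᵐ z ∂μ, ℓ e z ≠ 0 →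
      (p (e.1⁻¹ • z) = some (e.2, true) ∨ p ((e.1 * s e.2)⁻¹ • z) = some (e.2, false)) := by
    intro e he
    obtain ⟨Z, hZ1, hZ2, hZ3⟩ := exists_measurable_superset_of_null (ae_iff.1 (H e.2).2.2.2)
    set Z' : Set X := (fun z : X => (e.1 * s e.2)⁻¹ • z) ⁻¹' Z with hZ'
    have hZ'm : MeasurableSet Z' := hm _ hZ2
    have h1 : ∫⁻ z in Z', ℓ e z ∂μ = 0 := by
      rw [hℓi e he Z' hZ'm, show lam e = (κ e.2).map (fun x : X => (e.1 * s e.2) • x) from rfl,
        Measure.map_apply (hm _) hZ'm]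
      have : (fun x : X => (e.1 * s e.2) • x) ⁻¹' Z' = Z := by
        ext x
        simp only [hZ', Set.mem_preimage, inv_smul_smul]
      rw [this, hZ3]
    rw [lintegral_eq_zero_iff (hℓm e), Filter.EventuallyEq, ae_restrict_iff' hZ'm] at h1
    filter_upwards [h1] with z hz hne
    by_contra hcon
    refine hne (hz ?_)
    change (e.1 * s e.2)⁻¹ • z ∈ Z
    refine hZ1 ?_
    simp only [Set.mem_ofPred_eq]
    have : s e.2 • (e.1 * s e.2)⁻¹ • z = e.1⁻¹ • z := by
      rw [smul_smul]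
      congr 1
      group
    rw [this]
    exact hcon
  -- the pointwise inequality
  have key : ∀ᵐ z ∂μ, ∑ e ∈ E, ℓ e z ≤ ∑ v ∈ A ∪ B, ω v z := by
    have h1 := (Filter.eventually_all_finset E).2 hle1
    have h2 := (Filter.eventually_all_finset E).2 hle2
    have h3 := (Filter.eventually_all_finset E).2 hp
    filter_upwards [h1, h2, h3] with z g1 g2 g3
    let v : Γ × Fin N → Γ := fun e => if p (e.1⁻¹ • z) = some (e.2, true) then e.1 else e.1 * s e.2
    have hv1 : ∀ e ∈ E, ℓ e z ≤ ω (v e) z := by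
      intro e he
      simp only [v]
      split_ifs
      · exact g1 e he
      · exact g2 e he
    have hv2 : ∀ e ∈ E, v e ∈ A ∪ B := by
      intro e he
      simp only [v]
      split_ifs
      · exact hA e he
      · exact hB e he
    have hv3 : ∀ e ∈ E, ℓ e z ≠ 0 → ∀ e' ∈ E, ℓ e' z ≠ 0 → v e = v e' → e = e' := by
      intro e he hne e' he' hne' heq
      simp only [v] at heq
      rcases e with ⟨h, i⟩
      rcases e' with ⟨h', i'⟩
      have q := g3 _ he hne
      have q' := g3 _ he' hne'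
      simp only at heq q q'
      split_ifs at heq with c1 c2 c2
      · subst heq
        rw [c1] at c2
        simp only [Option.some.injEq, Prod.mk.injEq, and_true] at c2
        rw [c2]
      · have q2 := q'.resolve_left c2
        rw [← heq, c1] at q2
        simp at q2
      · have q2 := q.resolve_left c1
        rw [heq, c2] at q2
        simp at q2
      · have q2 := q.resolve_left c1
        have q2' := q'.resolve_left c2
        rw [← heq, q2] at q2'
        simp only [Option.some.injEq, Prod.mk.injEq, and_true] at q2'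
        subst q2'
        rw [mul_left_inj] at heq
        rw [heq]
    calc ∑ e ∈ E, ℓ e z = ∑ e ∈ E with ℓ e z ≠ 0, ℓ e z := by
          rw [Finset.sum_filter_ne_zero]
      _ ≤ ∑ e ∈ E with ℓ e z ≠ 0, ω (v e) z :=
          Finset.sum_le_sum fun e he => hv1 e (Finset.mem_filter.1 he).1
      _ = ∑ x ∈ (E.filter fun e => ℓ e z ≠ 0).image v, ω x z := by
          rw [Finset.sum_image]
          intro e he e' he' heq
          have he1 := Finset.mem_filter.1 (Finset.mem_coe.1 he)
          have he2 := Finset.mem_filter.1 (Finset.mem_coe.1 he')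
          exact hv3 e he1.1 he1.2 e' he2.1 he2.2 heq
      _ ≤ ∑ x ∈ A ∪ B, ω x z := by
          refine Finset.sum_le_sum_of_subset fun x hx => ?_
          obtain ⟨e, he, rfl⟩ := Finset.mem_image.1 hx
          exact hv2 e (Finset.mem_filter.1 he).1
  have hint := lintegral_mono_ae key
  rw [lintegral_finsetSum _ (fun e _ => hℓm e), lintegral_finsetSum _ (fun v _ => hωm v)] at hint
  have e1 : c * (E.card : ℝ≥0∞) ≤ ∑ e ∈ E, ∫⁻ z, ℓ e z ∂μ := by
    rw [mul_comm, ← nsmul_eq_mul, ← Finset.sum_const]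
    refine Finset.sum_le_sum fun e he => ?_
    rw [← setLIntegral_univ, hℓi e he _ MeasurableSet.univ,
      show lam e = (κ e.2).map (fun x : X => (e.1 * s e.2) • x) from rfl,
      Measure.map_apply (hm _) MeasurableSet.univ, Set.preimage_univ]
    exact (H e.2).2.2.1
  have e2 : ∑ v ∈ A ∪ B, ∫⁻ z, ω v z ∂μ ≤ (A.card : ℝ≥0∞) + (B.card : ℝ≥0∞) := by
    calc ∑ v ∈ A ∪ B, ∫⁻ z, ω v z ∂μ ≤ ∑ v ∈ A ∪ B, (1 : ℝ≥0∞) := by
          refine Finset.sum_le_sum fun v hv => ?_
          rw [← setLIntegral_univ, hωi v hv _ MeasurableSet.univ,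
            Measure.map_apply (hm _) MeasurableSet.univ, Set.preimage_univ]
          exact hν
      _ = ((A ∪ B).card : ℝ≥0∞) := by simp
      _ ≤ (A.card : ℝ≥0∞) + (B.card : ℝ≥0∞) := by
          exact_mod_cast Finset.card_union_le A B
  exact e1.trans (hint.trans e2)

end Pool.Agent.H81.LE
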