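import Mathlib

/-!
# Groups of piecewise projective homeomorphisms of the line have infinite Littlewood exponent

Statement file (definitions only).
-/

open scoped ENNReal MatrixGroups

namespace Pool.Agent.H81.LE

/-- The space `T₁(Γ)` of functions `f : Γ → ℂ` such that `f (x⁻¹ y) = f₁ (x, y) + f₂ (x, y)` with
`sup_x ∑_y |f₁ (x, y)| < ∞` and `sup_y ∑_x |f₂ (x, y)| < ∞`. -/
def T1 (Γ : Type*) [Group Γ] : Set (Γ → ℂ) :=
  {f | ∃ f₁ f₂ : Γ → Γ → ℂ, (∀ x y, f (x⁻¹ * y) = f₁ x y + f₂ x y) ∧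
    (⨆ x, ∑' y, ‖f₁ x y‖ₑ) < ∞ ∧ (⨆ y, ∑' x, ‖f₂ x y‖ₑ) < ∞}

/-- The Littlewood exponent `inf {p > 0 : T₁(Γ) ⊆ ℓᵖ(Γ)}`, an element of `[0, ∞]`, with
`inf ∅ = ∞`. -/
noncomputable def Lit (Γ : Type*) [Group Γ] : ℝ≥0∞ :=
  sInf {p : ℝ≥0∞ | 0 < p ∧ p < ∞ ∧ ∀ f ∈ T1 Γ, Memℓp f p}

/-- At the point `x` the homeomorphism `f` is given by the Möbius transformation of `w`. -/
def EqMob (f : ℝ ≃o ℝ) (w : SL(2, ℝ)) (x : ℝ) : Prop :=
  w 1 0 * x + w 1 1 ≠ 0 ∧ f x = (w 0 0 * x + w 0 1) / (w 1 0 * x + w 1 1)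

/-- A group of homeomorphisms of the line is *nearly free* on the interval `[p, q]` if for every `N`
and every `δ > 0` it has `N` elements which on `[p, q]` are Möbius transformations `w i`, where all
entries of the matrices `w i` are within `δ` of those of the identity matrix and the `w i` freely
generate a free subgroup of `SL₂(ℝ)`. -/
def NearFree (Γ : Subgroup (ℝ ≃o ℝ)) (p q : ℝ) : Prop :=
  ∀ (N : ℕ) (δ : ℝ), 0 < δ → ∃ (s : Fin N → (ℝ ≃o ℝ)) (w : Fin N → SL(2, ℝ)),
    Function.Injective (FreeGroup.lift w) ∧ ∀ i, s i ∈ Γ ∧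
      |w i 0 0 - 1| ≤ δ ∧ |w i 0 1| ≤ δ ∧ |w i 1 0| ≤ δ ∧ |w i 1 1 - 1| ≤ δ ∧
      ∀ x ∈ Set.Icc p q, EqMob (s i) (w i) x

/-- The real fixed points of the hyperbolic elements of `SL₂(A)`. -/
def PA (A : Subring ℝ) : Set ℝ :=
  {x | ∃ a b c d : ℝ, a ∈ A ∧ b ∈ A ∧ c ∈ A ∧ d ∈ A ∧ a * d - b * c = 1 ∧ 2 < |a + d| ∧
    c * x ^ 2 + (d - a) * x - b = 0}

/-- The compactly supported piecewise projective homeomorphisms of the line, all whose pieces are
given by elements of `SL₂(A)` and all whose break points are in `PA A`. -/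
def PP (A : Subring ℝ) (f : ℝ ≃o ℝ) : Prop :=
  ∃ F : Finset ℝ, (∀ x ∈ F, x ∈ PA A) ∧ (∃ R : ℝ, ∀ x, R < |x| → f x = x) ∧
    ∀ x ∉ F, ∃ a b c d : ℝ, a ∈ A ∧ b ∈ A ∧ c ∈ A ∧ d ∈ A ∧ a * d - b * c = 1 ∧
      ∀ᶠ y in nhds x, c * y + d ≠ 0 ∧ f y = (a * y + b) / (c * y + d)

/-- The first generator `t ↦ t + 1` of the Lodha-Moore group. -/
noncomputable def lmA : ℝ ≃o ℝ := OrderIso.addRight 1

/-- The function of the second generator of the Lodha-Moore group. -/
noncomputable def lmBfun (t : ℝ) : ℝ :=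
  if t ≤ 0 then t else if t ≤ 1 / 2 then t / (1 - t) else if t ≤ 1 then 3 - 1 / t else t + 1

/-- The inverse of `lmBfun`. -/
noncomputable def lmBinv (t : ℝ) : ℝ :=
  if t ≤ 0 then t else if t ≤ 1 then t / (1 + t) else if t ≤ 2 then 1 / (3 - t) else t - 1

/-- The function of the third generator of the Lodha-Moore group. -/
noncomputable def lmCfun (t : ℝ) : ℝ :=
  if 0 ≤ t ∧ t ≤ 1 then 2 * t / (1 + t) else t

/-- The inverse of `lmCfun`. -/
noncomputable def lmCinv (t : ℝ) : ℝ :=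
  if 0 ≤ t ∧ t ≤ 1 then t / (2 - t) else t

theorem lmBfun_strictMono : StrictMono lmBfun := by
  intro x y hxy
  unfold lmBfun
  split_ifs with h1 h2 h3 h4 h5 h6 h7 h8 h9 <;> try linarith
  · push Not at h2
    have : 0 < y / (1 - y) := div_pos h2 (by linarith)
    linarith
  · push Not at h2 h3
    have : 1 / y < 2 := by
      rw [div_lt_iff₀ (by linarith)]; linarith
    linarith
  · push Not at *
    rw [div_lt_div_iff₀ (by linarith) (by linarith)]
    nlinarith
  · push Not at *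
    have e1 : x / (1 - x) ≤ 1 := by
      rw [div_le_iff₀ (by linarith)]; linarith
    have e2 : 1 / y < 2 := by
      rw [div_lt_iff₀ (by linarith)]; linarith
    linarith
  · push Not at *
    have e1 : x / (1 - x) ≤ 1 := by
      rw [div_le_iff₀ (by linarith)]; linarith
    linarith
  · push Not at *
    have e1 : 1 / y < 1 / x := by
      rw [div_lt_div_iff₀ (by linarith) (by linarith)]; linarith
    linarith
  · push Not at *
    have e1 : 1 ≤ 1 / x := by
      rw [le_div_iff₀ (by linarith)]; linarith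
    linarith

theorem lmBfun_lmBinv (t : ℝ) : lmBfun (lmBinv t) = t := by
  unfold lmBinv
  split_ifs with h1 h2 h3
  · simp [lmBfun, h1]
  · push Not at *
    have e0 : 0 < t / (1 + t) := div_pos h1 (by linarith)
    have e1 : t / (1 + t) ≤ 1 / 2 := by
      rw [div_le_div_iff₀ (by linarith) (by norm_num)]; linarith
    unfold lmBfun
    rw [if_neg (by linarith), if_pos e1]
    have : (1 : ℝ) + t ≠ 0 := by linarith
    field_simp
    ring
  · push Not at *
    have e0 : 1 / 2 < 1 / (3 - t) := by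
      rw [div_lt_div_iff₀ (by norm_num) (by linarith)]; linarith
    have e1 : 1 / (3 - t) ≤ 1 := by
      rw [div_le_one (by linarith)]; linarith
    unfold lmBfun
    rw [if_neg (by linarith), if_neg (by linarith), if_pos e1]
    have : (3 : ℝ) - t ≠ 0 := by linarith
    field_simp
    ring
  · push Not at *
    unfold lmBfun
    rw [if_neg (by linarith), if_neg (by linarith), if_neg (by linarith)]
    ring

theorem lmCfun_strictMono : StrictMono lmCfun := by
  intro x y hxy
  unfold lmCfun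
  split_ifs with h1 h2 h2
  · rw [div_lt_div_iff₀ (by linarith) (by linarith)]
    nlinarith
  · have e1 : 2 * x / (1 + x) ≤ 1 := by
      rw [div_le_one (by linarith)]; linarith
    have : 1 < y := by
      by_contra h3
      exact h2 ⟨by linarith, by linarith⟩
    linarith
  · have e1 : 0 ≤ 2 * y / (1 + y) := div_nonneg (by linarith) (by linarith)
    have : x < 0 := by
      by_contra h3
      exact h1 ⟨by linarith, by linarith⟩
    linarith
  · exact hxy

theorem lmCfun_lmCinv (t : ℝ) : lmCfun (lmCinv t) = t := by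
  unfold lmCinv
  split_ifs with h1
  · have e0 : 0 ≤ t / (2 - t) := div_nonneg (by linarith) (by linarith)
    have e1 : t / (2 - t) ≤ 1 := by
      rw [div_le_one (by linarith)]; linarith
    unfold lmCfun
    rw [if_pos ⟨e0, e1⟩]
    have : (2 : ℝ) - t ≠ 0 := by linarith
    field_simp
    ring
  · simp [lmCfun, h1]

/-- The second generator of the Lodha-Moore group. -/
noncomputable def lmB : ℝ ≃o ℝ :=
  StrictMono.orderIsoOfRightInverse lmBfun lmBfun_strictMono lmBinv lmBfun_lmBinv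

/-- The third generator of the Lodha-Moore group. -/
noncomputable def lmC : ℝ ≃o ℝ :=
  StrictMono.orderIsoOfRightInverse lmCfun lmCfun_strictMono lmCinv lmCfun_lmCinv

end Pool.Agent.H81.LE
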