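import Pool.Agent.H81.LE.Stmt

/-!
# Targets for the modules
-/

open scoped ENNReal MatrixGroups
open MeasureTheory

namespace Pool.Agent.H81.LE

/-- Between any two finite sets there are at most `K (|A| + |B|)` edges `(a, b)` with
`a⁻¹ b ∈ S`. -/
def Sparse {Γ : Type*} [Group Γ] (K : ℕ) (S : Finset Γ) : Prop :=
  ∀ A B : Finset Γ, ∀ E : Finset (Γ × Γ), (∀ x ∈ E, x.1 ∈ A ∧ x.2 ∈ B ∧ x.1⁻¹ * x.2 ∈ S) →
    E.card ≤ K * (A.card + B.card)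

/-- LIT: arbitrarily large sparse sets force `Lit Γ = ⊤`. -/
def T_LIT.{u} : Prop := ∀ (Γ : Type u) [Group Γ] (K : ℕ),
  (∀ N : ℕ, ∃ S : Finset Γ, N ≤ S.card ∧ Sparse K S) → Lit Γ = ⊤

/-- MEA: the counting bound for partial actions with an orientation `p`. -/
def T_MEA.{u, v} : Prop := ∀ (Γ : Type u) [Group Γ] (X : Type v) [MeasurableSpace X]
  [MulAction Γ X], (∀ g : Γ, Measurable fun x : X => g • x) → ∀ (N : ℕ) (s : Fin N → Γ)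
  (ν : Measure X) (κ : Fin N → Measure X) (c : ℝ≥0∞) (p : X → Option (Fin N × Bool)),
  ν Set.univ ≤ 1 →
  (∀ i, κ i ≤ ν ∧ (κ i).map (fun x => s i • x) ≤ ν ∧ c ≤ κ i Set.univ ∧
    ∀ᵐ x ∂(κ i), p (s i • x) = some (i, true) ∨ p x = some (i, false)) →
  ∀ (A B : Finset Γ) (E : Finset (Γ × Fin N)), (∀ x ∈ E, x.1 ∈ A ∧ x.1 * s x.2 ∈ B) →
    c * (E.card : ℝ≥0∞) ≤ (A.card : ℝ≥0∞) + (B.card : ℝ≥0∞)

/-- HEAD: first letters. -/
def T_HEAD : Prop := ∀ N : ℕ, ∃ p : FreeGroup (Fin N) → Option (Fin N × Bool),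
  ∀ (g : FreeGroup (Fin N)) (i : Fin N),
    p (FreeGroup.of i * g) = some (i, true) ∨ p g = some (i, false)

/-- CRIT: the measured criterion. -/
def T_CRIT.{u, v} : Prop := ∀ (Γ : Type u) [Group Γ] (X : Type v) [MeasurableSpace X]
  [MulAction Γ X], (∀ g : Γ, Measurable fun x : X => g • x) → ∀ c : ℝ≥0∞, c ≠ 0 →
  (∀ N : ℕ, ∃ (s : Fin N → Γ) (ν : Measure X) (κ : Fin N → Measure X)
    (φ : X → FreeGroup (Fin N)), ν Set.univ ≤ 1 ∧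
    ∀ i, κ i ≤ ν ∧ (κ i).map (fun x => s i • x) ≤ ν ∧ c ≤ κ i Set.univ ∧
      ∀ᵐ x ∂(κ i), φ (s i • x) = FreeGroup.of i * φ x) → Lit Γ = ⊤

/-- PHI: coordinates in the free group for the Möbius action on the line. -/
def T_PHI : Prop := ∀ (N : ℕ) (w : Fin N → SL(2, ℝ)), Function.Injective (FreeGroup.lift w) →
  ∃ (φ : ℝ → FreeGroup (Fin N)) (Z : Set ℝ), Z.Countable ∧ ∀ x ∉ Z, ∀ (i : Fin N) (y : ℝ),
    w i 1 0 * x + w i 1 1 ≠ 0 → y = (w i 0 0 * x + w i 0 1) / (w i 1 0 * x + w i 1 1) →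
    φ y = FreeGroup.of i * φ x

/-- Normalised Lebesgue measure on `[p, q]`. -/
noncomputable def nu (p q : ℝ) : Measure ℝ :=
  (ENNReal.ofReal (q - p))⁻¹ • volume.restrict (Set.Icc p q)

/-- OVL: a homeomorphism which is a Möbius transformation close to the identity nearly preserves
Lebesgue measure. -/
def T_OVL : Prop := ∀ p q : ℝ, p < q → ∃ δ : ℝ, 0 < δ ∧ ∀ (f : ℝ ≃o ℝ) (w : SL(2, ℝ)),
  |w 0 0 - 1| ≤ δ → |w 0 1| ≤ δ → |w 1 0| ≤ δ → |w 1 1 - 1| ≤ δ →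
  (∀ x ∈ Set.Icc p q, EqMob f w x) →
  ∃ κ : Measure ℝ, κ ≤ nu p q ∧ κ.map f ≤ nu p q ∧ (1 / 2 : ℝ≥0∞) ≤ κ Set.univ

/-- NFC: nearly free groups of homeomorphisms have infinite Littlewood exponent. -/
def T_NFC : Prop := ∀ (Γ : Subgroup (ℝ ≃o ℝ)) (p q : ℝ), p < q → NearFree Γ p q → Lit Γ = ⊤

/-- The matrices `T_{se} L_e T_{se}`, where `T_a = (1 a; 0 1)` and `L_b = (1 0; b 1)`. -/
def W {R : Type*} [CommRing R] (s : ℕ) (e : R) : SL(2, R) :=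
  ⟨!![1 + s * e ^ 2, 2 * s * e + s ^ 2 * e ^ 3; e, 1 + s * e ^ 2], by
    rw [Matrix.det_fin_two_of]; ring⟩

/-- PP: ping-pong over a field with an absolute value. -/
def T_PP : Prop := ∀ (K : Type) [Field K] (v : AbsoluteValue K ℝ) (N : ℕ) (e : K),
  (∀ k : ℕ, 1 ≤ k → k ≤ 2 * N + 4 → 4 < v e ^ 2 * v (k : K)) →
  Function.Injective (FreeGroup.lift fun i : Fin N => W ((i : ℕ) + 1) e)

/-- PL: a place at which `c` is large. -/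
def T_PL : Prop := ∀ c : ℝ, 0 < c → c < 1 → ∃ (K : Type) (_ : Field K) (v : AbsoluteValue K ℝ)
  (σ : Algebra.adjoin ℤ {c} →+* K), CharZero K ∧
    1 < v (σ ⟨c, Algebra.subset_adjoin (Set.mem_singleton c)⟩)

/-- GEN: free generators close to the identity. -/
def T_GEN : Prop := ∀ c : ℝ, 0 < c → c < 1 → ∀ (N : ℕ), ∃ k₀ : ℕ, ∀ k : ℕ, k₀ ≤ k →
  ∀ e : ℝ, (e = c ^ k ∨ e = -c ^ k) →
    Function.Injective (FreeGroup.lift fun i : Fin N => (W ((i : ℕ) + 1) e : SL(2, ℝ)))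

/-- EL: elements of Monod's groups. -/
def T_EL : Prop := ∀ (A : Subring ℝ) (e : ℝ), e ∈ A → 0 < e → ∀ s : ℕ, 1 ≤ s →
  ∃ f : ℝ ≃o ℝ, PP A f ∧ ∀ x ∈ Set.Icc (0 : ℝ) 1, EqMob f (W s e) x

/-- MON: Monod's groups are nearly free. -/
def T_MON : Prop := ∀ (A : Subring ℝ), A ≠ ⊥ → ∀ Γ : Subgroup (ℝ ≃o ℝ),
  (∀ f, PP A f → f ∈ Γ) → NearFree Γ 0 1

/-- LM: the Lodha-Moore group is nearly free. -/
def T_LM : Prop := ∀ Γ : Subgroup (ℝ ≃o ℝ), lmA ∈ Γ → lmB ∈ Γ → lmC ∈ Γ → NearFree Γ 0 1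

end Pool.Agent.H81.LE
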